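import Mathlib
import Pool.Agent.H944.BX.Small
import Pool.Agent.H944.BX.Gap

set_option autoImplicit false

/-!
# Cycles of the maps `T_{a,b}` whose parity word is a balanced product of two arbitrary words

`T_{a,b} x = x / 2` for even `x` and `(a x + b) / 2` for odd `x`; `a ≥ 3` and `b` are odd. Let `x` be a periodic
integer of period `L` (with `K` odd elements in its cycle) whose parity word is the balanced (Christoffel)
product of two words `u`, `v`, in which `u` occurs `q` times and `v` occurs `p` times, `p` and `q` coprime. In a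
commutative ring in which `2 ^ L = a ^ K` and `2`, `a` are units there is a unit `w` such that the multipliers of
the affine maps of `u` and `v` are `w ^ (-p)` and `w ^ q`; weighting the blocks of the cycle with the powers of
`w` given by the rotation by `p` modulo `p + q` makes the sum over the cycle telescope to geometric sums, and one
finds that the affine maps of `u` and `v` commute in the ring. So `2 ^ L - a ^ K` divides `b` times the numerator
of the constant of the commutator over the integers (`Pool.Agent.H944.BX.Pt.dvd`). This numerator is not zero if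
`L` is the least period, and it is at most `2 · 2 ^ (|u| + |v|) · (a / 2) ^ (|u|₁ + |v|₁)`, while
`|2 ^ L - a ^ K|` is at least `2 ^ ((1 - η) L)` for all but finitely many `L` by Ridout's theorem (starting
library).
-/

namespace Pool.Agent.Results.MP_dee342_nt.BalancedProducts

/-- The map `T_{a,b}`: `x / 2` for even `x`, `(a x + b) / 2` for odd `x`. -/
def T (a b : ℤ) (x : ℤ) : ℤ := if x % 2 = 0 then x / 2 else (a * x + b) / 2

/-- The parity word of length `n` of `x`: its letter number `i` (`i < n`) is `true` if `T^i x` is odd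
and `false` if it is even. -/
def word (a b : ℤ) (x : ℤ) (n : ℕ) : List Bool :=
  (List.range n).map fun i => decide ((T a b)^[i] x % 2 = 1)

/-- The balanced product of the words `u` and `v` with slope `p / (p + q)`: the concatenation of `p + q`
words, the word number `i` (`i < p + q`) being `v` if the integer part of `(i p + s) / (p + q)` increases
from `i` to `i + 1`, and `u` otherwise. -/
def balanced (p q s : ℕ) (u v : List Bool) : List Bool :=
  (List.range (p + q)).flatMap fun i =>
    if (i * p + s) / (p + q) < ((i + 1) * p + s) / (p + q) then v else u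

open Pool.Agent.H944.BX in
theorem length_balanced {p q s : ℕ} (hp : 1 ≤ p) (hc : p.Coprime q) (u v : List Bool)
    (g : Bool) : (balanced p q s u v).length = q * u.length + p * v.length ∧
      (balanced p q s u v).count g = q * u.count g + p * v.count g := by
  have h4 : balanced p q s u v = (List.range (p + q)).flatMap (blk p q s u v) := rfl
  constructor
  · rw [h4, length_flatMap]
    exact sum_blk hp hc u v List.length
  · rw [h4, ← sum_blk (s := s) hp hc u v (List.count g)]
    generalize p + q = m
    generalize blk p q s u v = B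
    induction m with
    | zero => simp
    | succ m ih =>
      rw [List.range_succ, List.flatMap_append, List.count_append, ih, Finset.sum_range_succ]
      simp

open Pool.Agent.H944.BX in
theorem main (a b : ℤ) (ha : 3 ≤ a) (hao : a % 2 = 1) (hbo : b % 2 = 1) (ε : ℝ) (hε : 0 < ε) :
    {x : ℤ | ∃ (p q s : ℕ) (u v : List Bool),
      1 ≤ p ∧ 1 ≤ q ∧ p.Coprime q ∧ u ≠ [] ∧ v ≠ [] ∧
      word a b x (Function.minimalPeriod (T a b) x) = balanced p q s u v ∧
      (u.length : ℝ) + v.length + (Real.logb 2 a - 1) * (u.count true + v.count true) ≤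
        (1 - ε) * Function.minimalPeriod (T a b) x}.Finite := by
  have haR : (3 : ℝ) ≤ a := by exact_mod_cast ha
  have hb0 : (1 : ℝ) ≤ |(b : ℝ)| := by
    have : 1 ≤ |b| := Int.one_le_abs (by rintro rfl; norm_num at hbo)
    exact_mod_cast this
  set η : ℝ := min (ε / 2) (1 / 2) with hη
  have hη0 : 0 < η := lt_min (by linarith) (by norm_num)
  have hη1 : η < 1 := lt_of_le_of_lt (min_le_right _ _) (by norm_num)
  have hηε : η ≤ ε / 2 := min_le_left _ _
  obtain ⟨c, hc'⟩ : ∃ c : ℕ, (c : ℤ) = a := ⟨a.toNat, Int.toNat_of_nonneg (by linarith)⟩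
  obtain ⟨κ, hκ, hgap⟩ := gap (c := c) (by omega) (by omega) η hη0 hη1
  have hcR : (c : ℝ) = a := by exact_mod_cast congrArg (fun z : ℤ => (z : ℝ)) hc'
  rw [hcR] at hgap
  obtain ⟨M, hM⟩ := exists_nat_gt (Real.logb 2 (2 * |(b : ℝ)| / κ) / (ε / 2))
  refine (finite_periodic ha hao hbo M).subset ?_
  rintro x ⟨p, q, s, u, v, hp, hq, hc, hu, hv, hw, hineq⟩
  have hu1 : 1 ≤ u.length := List.length_pos_iff.2 hu
  have hv1 : 1 ≤ v.length := List.length_pos_iff.2 hv
  set n := Function.minimalPeriod (T a b) x with hn
  have hlen : n = q * u.length + p * v.length := by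
    have h1 := congrArg List.length hw
    have h2 : (word a b x n).length = n := word_length x n
    rw [← h2, h1, (length_balanced hp hc u v true).1]
  have hn1 : 1 ≤ n := by rw [hlen]; nlinarith
  have hx : (T a b)^[n] x = x := Function.iterate_minimalPeriod
  have P : Pt a b x p q s u v := ⟨ha, hao, hbo, hp, hc, by rw [← hlen]; exact hw, by
    rw [← hlen]; exact hx⟩
  refine ⟨n, hn1, ?_, hx⟩
  by_contra hcon
  push Not at hcon
  have hne : b * com a u v ≠ 0 := by
    refine mul_ne_zero (by rintro rfl; norm_num at hbo) ?_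
    refine P.com_ne hq hu1 hv1 fun m hm1 hm2 hm3 => ?_
    rw [← hlen] at hm2
    exact Function.not_isPeriodicPt_of_pos_of_lt_minimalPeriod (by omega) hm2 hm3
  have hdvd := P.dvd hq hu1
  rw [← hlen] at hdvd
  set K := q * u.count true + p * v.count true
  have h1 : |(2 : ℝ) ^ n - (a : ℝ) ^ K| ≤ |(b : ℝ)| * |(com a u v : ℝ)| := by
    have h2 : |(2 : ℤ) ^ n - a ^ K| ≤ |b * com a u v| := by
      have h3 := Int.le_of_dvd (abs_pos.2 hne) ((abs_dvd_abs _ _).2 hdvd)
      exact h3
    rw [abs_mul] at h2
    exact_mod_cast h2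
  have h2 := hgap n K hn1
  have h3 := com_le ha u v
  have h32 : (a / 2 : ℝ) = 2 ^ (Real.logb 2 a - 1) := by
    rw [Real.rpow_sub (by norm_num), Real.rpow_one, Real.rpow_logb (by norm_num) (by norm_num)
      (by linarith)]
  have h4 : (2 : ℝ) ^ (u.length + v.length) * ((a : ℝ) / 2) ^ (u.count true + v.count true) =
      2 ^ ((u.length : ℝ) + v.length + (Real.logb 2 a - 1) * (u.count true + v.count true)) := by
    rw [Real.rpow_add (by norm_num), Real.rpow_mul (by norm_num), ← h32, ← Nat.cast_add,
      ← Nat.cast_add, Real.rpow_natCast, Real.rpow_natCast]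
  have h5 : (2 : ℝ) ^ ((u.length : ℝ) + v.length + (Real.logb 2 a - 1) *
      (u.count true + v.count true)) ≤ 2 ^ ((1 - ε) * n) :=
    Real.rpow_le_rpow_of_exponent_le (by norm_num) hineq
  have h6 : κ * (2 : ℝ) ^ ((1 - η) * n) ≤ 2 * |(b : ℝ)| * 2 ^ ((1 - ε) * n) := by
    rw [h4] at h3
    have h7 : |(b : ℝ)| * |(com a u v : ℝ)| ≤ |(b : ℝ)| * (2 * 2 ^ ((1 - ε) * n)) :=
      mul_le_mul_of_nonneg_left (by linarith) (abs_nonneg _)
    linarith
  have hnR : (M : ℝ) < n := by exact_mod_cast hcon
  have h7 : (2 : ℝ) ^ ((ε - η) * n) ≤ 2 * |(b : ℝ)| / κ := by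
    rw [le_div_iff₀ hκ]
    have h8 : (2 : ℝ) ^ ((1 - η) * n) = 2 ^ ((ε - η) * n) * 2 ^ ((1 - ε) * n) := by
      rw [← Real.rpow_add (by norm_num)]
      congr 1
      ring
    rw [h8] at h6
    have h9 : (0 : ℝ) < 2 ^ ((1 - ε) * n) := by positivity
    by_contra h10
    push Not at h10
    nlinarith
  have h8 : Real.logb 2 (2 * |(b : ℝ)| / κ) < (ε - η) * n := by
    rw [div_lt_iff₀ (by linarith)] at hM
    have h9 : (0 : ℝ) < M ∨ (M : ℝ) = 0 := by
      rcases (Nat.cast_nonneg (α := ℝ) M).lt_or_eq with h | h
      · exact Or.inl h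
      · exact Or.inr h.symm
    nlinarith
  have h9 : 2 * |(b : ℝ)| / κ < (2 : ℝ) ^ ((ε - η) * n) := by
    have h10 := Real.rpow_lt_rpow_of_exponent_lt (x := 2) (by norm_num) h8
    rwa [Real.rpow_logb (by norm_num) (by norm_num) (by positivity)] at h10
  linarith

/-- Let `a ≥ 3` and `b` be odd. (1) For every `ε > 0` only finitely many integers `x` that are periodic under
`T_{a,b}` have a parity word over their least period that is a balanced product of two nonempty words `u`
(occurring `q` times) and `v` (occurring `p` times), `p, q ≥ 1` coprime, with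
`|u| + |v| + (log_2 a - 1) (|u|_1 + |v|_1) ≤ (1 - ε) (q |u| + p |v|)`, where `|u|_1` is the number of the odd
letters of `u`. (2) In particular there are only finitely many with `p, q ≥ 2`, with no condition on `u`
and `v`. -/
theorem result (a b : ℤ) (ha : 3 ≤ a) (hao : a % 2 = 1) (hbo : b % 2 = 1) :
    (∀ ε : ℝ, 0 < ε → {x : ℤ | ∃ (p q s : ℕ) (u v : List Bool),
      1 ≤ p ∧ 1 ≤ q ∧ p.Coprime q ∧ u ≠ [] ∧ v ≠ [] ∧
      word a b x (Function.minimalPeriod (T a b) x) = balanced p q s u v ∧
      (u.length : ℝ) + v.length + (Real.logb 2 a - 1) * (u.count true + v.count true) ≤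
        (1 - ε) * Function.minimalPeriod (T a b) x}.Finite) ∧
    {x : ℤ | ∃ (p q s : ℕ) (u v : List Bool),
      2 ≤ p ∧ 2 ≤ q ∧ p.Coprime q ∧ u ≠ [] ∧ v ≠ [] ∧
      word a b x (Function.minimalPeriod (T a b) x) = balanced p q s u v}.Finite := by
  refine ⟨main a b ha hao hbo, ?_⟩
  have haR : (3 : ℝ) ≤ a := by exact_mod_cast ha
  have hA : 1 < Real.logb 2 a := by
    rw [Real.lt_logb_iff_rpow_lt (by norm_num) (by linarith)]
    norm_num
    linarith
  set A := Real.logb 2 a with hAdef
  refine ((main a b ha hao hbo (1 / (2 * (2 * A - 1))) (by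
    have : 0 < 2 * A - 1 := by linarith
    positivity)).union (Pool.Agent.H944.BX.finite_small (a := a) (b := b))).subset ?_
  rintro x ⟨p, q, s, u, v, hp, hq, hc, hu, hv, hw⟩
  set n := Function.minimalPeriod (T a b) x with hn
  have hlen : n = q * u.length + p * v.length := by
    have h1 := congrArg List.length hw
    have h2 : (word a b x n).length = n := Pool.Agent.H944.BX.word_length x _
    rw [← h2, h1, (length_balanced (by omega) hc u v true).1]
  have hcount : (word a b x n).count true = q * u.count true + p * v.count true := by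
    rw [hw, (length_balanced (by omega) hc u v true).2]
  have hn1 : 1 ≤ n := by
    have hu1 : 1 ≤ u.length := List.length_pos_iff.2 hu
    rw [hlen]
    nlinarith
  have hx : (T a b)^[n] x = x := Function.iterate_minimalPeriod
  by_cases hsm : ∃ i, |(T a b)^[i] x| < 2 * |b|
  · exact Or.inr ⟨n, hn1, hx, hsm⟩
  push Not at hsm
  refine Or.inl ⟨p, q, s, u, v, by omega, by omega, hc, hu, hv, hw, ?_⟩
  have h1 := Pool.Agent.H944.BX.count_bound ha hao hbo x n hx hsm
  have h2 : ((Pool.Agent.H944.BX.word a b x n).count true : ℝ) =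
      q * u.count true + p * v.count true := by
    have : (Pool.Agent.H944.BX.word a b x n).count true = q * u.count true + p * v.count true :=
      hcount
    exact_mod_cast this
  rw [h2, ← hAdef] at h1
  have hlenR : (n : ℝ) = q * u.length + p * v.length := by exact_mod_cast hlen
  have hpR : (2 : ℝ) ≤ p := by exact_mod_cast hp
  have hqR : (2 : ℝ) ≤ q := by exact_mod_cast hq
  have e1 : 2 * (u.length : ℝ) ≤ q * u.length := mul_le_mul_of_nonneg_right hqR (by positivity)
  have e2 : 2 * (v.length : ℝ) ≤ p * v.length := mul_le_mul_of_nonneg_right hpR (by positivity)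
  have e3 : 2 * (u.count true : ℝ) ≤ q * u.count true :=
    mul_le_mul_of_nonneg_right hqR (by positivity)
  have e4 : 2 * (v.count true : ℝ) ≤ p * v.count true :=
    mul_le_mul_of_nonneg_right hpR (by positivity)
  set Q : ℝ := u.count true + v.count true with hQ
  have hD : 0 < 2 * A - 1 := by linarith
  -- `2 Q (2 A - 1) ≤ 2 n`
  have h3 : Q * (2 * A - 1) ≤ n := by nlinarith
  have h4 : (u.length : ℝ) + v.length ≤ n / 2 := by linarith
  have h5 : Q ≤ n / (2 * A - 1) := by rwa [le_div_iff₀ hD]
  have h6 : (A - 1) * Q ≤ (A - 1) * (n / (2 * A - 1)) :=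
    mul_le_mul_of_nonneg_left h5 (by linarith)
  have h7 : (n : ℝ) / 2 + (A - 1) * (n / (2 * A - 1)) = (1 - 1 / (2 * (2 * A - 1))) * n := by
    field_simp
    ring
  linarith

end Pool.Agent.Results.MP_dee342_nt.BalancedProducts
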