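import Mathlib
import Pool.Agent.R343.LZG2

set_option autoImplicit false

/-!
# The Lempel-Ziv complexity of the parity words of the cycles of the 3x+1, 5x+1 and `a x + b` maps

A parse of the parity word of a trajectory of `T_{a,b}` into phrases, each of which without its last
letter is a copy of an earlier part of the word (at any distance, overlaps allowed), has at least
`log n / log (log a / log 2) - O(log log (|x| + |b|))` phrases as long as the terms are different. For
a cycle of a map with prime `a` the linear forms in `log 2`, `log a` bound the least element, so that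
the parity words of cycles cannot be compressed by the Lempel-Ziv method below
`log p / log (log a / log 2) - O(log log p)` phrases, and there are at most `exp (C (1 + z ^ 2))`
cycles with at most `z` phrases for each of the maps `3x+1` and `5x+1`. All bounds are uniform in `b`.

Proof: two different integers whose next `g` parities agree differ by a multiple of `2 ^ g`, so a
phrase is at most as long as the larger of the two terms has binary digits (plus two), and the number
of digits grows by `log_2 a - 1` at most in each step.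
-/

namespace Pool.Agent.Results.MP_dee342_nt.LempelZivCycles

/-- The map `T_{a,b}` on the integers: `x / 2` for even `x`, `(a x + b) / 2` for odd `x`. -/
def T (a b x : ℤ) : ℤ := if x % 2 = 0 then x / 2 else (a * x + b) / 2

/-- `Z` is a periodic orbit of `f`. -/
def IsCycle (f : ℤ → ℤ) (Z : Finset ℤ) : Prop :=
  ∃ (x : ℤ) (p : ℕ), 1 ≤ p ∧ f^[p] x = x ∧ Z = (Finset.range p).image fun i => f^[i] x

/-- The parity word of `x` under `T_{a,b}`. -/
def par (a b x : ℤ) (i : ℕ) : ℤ := (T a b)^[i] x % 2

/-- The word `w 0, ..., w (n-1)` is the concatenation of `z` nonempty words (the phrases; the cuts are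
`0 = t 0 < t 1 < ... < t z = n`), each of which consists of one letter, or is such that the word which
remains if its last letter is deleted occurs in `w` also from an earlier position `j < t k` on (the
two occurrences may overlap). -/
def Phrases (w : ℕ → ℤ) (n z : ℕ) : Prop :=
  ∃ t : ℕ → ℕ, t 0 = 0 ∧ t z = n ∧ ∀ k < z, t k < t (k + 1) ∧
    (t (k + 1) = t k + 1 ∨ ∃ j < t k, ∀ i, t k + i + 1 < t (k + 1) → w (t k + i) = w (j + i))

/-- The Lempel-Ziv complexity of the word `w 0, ..., w (n-1)`: the least number of phrases. -/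
noncomputable def lz (w : ℕ → ℤ) (n : ℕ) : ℕ := sInf {z | Phrases w n z}

/-- The periodic orbits of `T_{a,b}` whose parity word, read once around the orbit from an element of
least absolute value, has Lempel-Ziv complexity at most `z`. -/
def Compressible (a b : ℤ) (z : ℕ) : Set (Finset ℤ) :=
  {Z | IsCycle (T a b) Z ∧ ∃ x ∈ Z, (∀ y ∈ Z, |x| ≤ |y|) ∧ lz (par a b x) Z.card ≤ z}

/-- (1) For all odd `a ≥ 3`, odd `b`, all integers `x` and all `n` such that `x, T x, ..., T ^ (n-1) x`,
`T = T_{a,b}`, are different, if `z` is the Lempel-Ziv complexity of the parity word of `x` of length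
`n` then `n ≤ (2 + log_2 (|x| + |b|)) (1 + δ + ... + δ ^ (z-1))`, where `δ = log a / log 2`.
(2) For every odd prime `a` there is `A` such that for every odd `b` and every periodic orbit of
`T_{a,b}` with `p` elements, if `z` is the Lempel-Ziv complexity of its parity word, read once around
the orbit from an element of least absolute value, then
`p ≤ A (log |b| + (1 + log p) ^ 2) δ ^ z`.
(3) For every odd prime `a` there is `C` such that for every odd `b` and every `z` there are at most
`exp (C (1 + log |b| + z ^ 2))` periodic orbits for which this complexity is at most `z`.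
(4) In particular for some `C` and every `z` each of the maps `T_{3,1}` and `T_{5,1}` has at most
`exp (C (1 + z ^ 2))` periodic orbits for which this complexity is at most `z`. -/
theorem result :
    (∀ a b : ℤ, a % 2 = 1 → 3 ≤ a → b % 2 = 1 → ∀ (x : ℤ) (n : ℕ),
      Set.InjOn (fun i => (T a b)^[i] x) (Set.Iio n) →
      (n : ℝ) ≤ (2 + Real.logb 2 (|(x : ℝ)| + |(b : ℝ)|)) *
        ∑ k ∈ Finset.range (lz (par a b x) n), (Real.log a / Real.log 2) ^ k) ∧
    (∀ a : ℕ, a.Prime → a ≠ 2 → ∃ A : ℝ, ∀ b : ℤ, b % 2 = 1 → ∀ Z : Finset ℤ,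
      IsCycle (T a b) Z → ∀ x ∈ Z, (∀ y ∈ Z, |x| ≤ |y|) →
      (Z.card : ℝ) ≤ A * (Real.log |(b : ℝ)| + (1 + Real.log Z.card) ^ 2) *
        (Real.log a / Real.log 2) ^ lz (par a b x) Z.card) ∧
    (∀ a : ℕ, a.Prime → a ≠ 2 → ∃ C : ℝ, ∀ b : ℤ, b % 2 = 1 → ∀ z : ℕ,
      (Compressible a b z).Finite ∧ ((Compressible a b z).ncard : ℝ) ≤
        Real.exp (C * (1 + Real.log |(b : ℝ)| + (z : ℝ) ^ 2))) ∧
    (∃ C : ℝ, ∀ z : ℕ, (Compressible 3 1 z).Finite ∧ (Compressible 5 1 z).Finite ∧
      ((Compressible 3 1 z).ncard : ℝ) ≤ Real.exp (C * (1 + (z : ℝ) ^ 2)) ∧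
      ((Compressible 5 1 z).ncard : ℝ) ≤ Real.exp (C * (1 + (z : ℝ) ^ 2))) := by
  have h3 : ∀ a : ℕ, a.Prime → a ≠ 2 → ∃ C : ℝ, ∀ b : ℤ, b % 2 = 1 → ∀ z : ℕ,
      (Compressible a b z).Finite ∧ ((Compressible a b z).ncard : ℝ) ≤
        Real.exp (C * (1 + Real.log |(b : ℝ)| + (z : ℝ) ^ 2)) := by
    intro a ha ha2
    obtain ⟨C, -, hC⟩ := Pool.Agent.R343.LZG.count ha ha2
    exact ⟨C, hC⟩
  refine ⟨?_, ?_, h3, ?_⟩
  · intro a b ha ha3 hb x n hinj
    have hinj' : ∀ i < n, ∀ j < n, (Pool.Agent.Y780.Cz.T a b)^[i] x =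
        (Pool.Agent.Y780.Cz.T a b)^[j] x → i = j := fun i hi j hj h => hinj hi hj h
    exact Pool.Agent.R343.LZG.traj ha ha3 hb x n _ hinj' (Pool.Agent.R343.LZ.phrases_lz _ _)
  · intro a ha ha2
    obtain ⟨A, -, hA⟩ := Pool.Agent.R343.LZG.cyc_bound ha ha2
    refine ⟨A, fun b hb Z hZ x hx hmin => ?_⟩
    have hZ' : Pool.Agent.R343.LZG.IsCyc (Pool.Agent.Y780.Cz.T a b) Z := hZ
    obtain ⟨h1, h2, h4, h5⟩ := Pool.Agent.R343.LZG.elem hZ' hx
    exact hA b hb x Z.card _ h1 h2 h4 (fun j => hmin _ (h5 j)) (Pool.Agent.R343.LZ.phrases_lz _ _)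
  · obtain ⟨C3, hC3⟩ := h3 3 Nat.prime_three (by norm_num)
    obtain ⟨C5, hC5⟩ := h3 5 Nat.prime_five (by norm_num)
    refine ⟨max C3 C5, fun z => ?_⟩
    obtain ⟨e1, e2⟩ := hC3 1 (by norm_num) z
    obtain ⟨e3, e4⟩ := hC5 1 (by norm_num) z
    simp only [Int.cast_one, abs_one, Real.log_one, add_zero] at e2 e4
    have hz : (0 : ℝ) ≤ 1 + (z : ℝ) ^ 2 := by positivity
    refine ⟨e1, e3, e2.trans ?_, e4.trans ?_⟩
    · exact Real.exp_le_exp.2 (mul_le_mul_of_nonneg_right (le_max_left _ _) hz)
    · exact Real.exp_le_exp.2 (mul_le_mul_of_nonneg_right (le_max_right _ _) hz)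

end Pool.Agent.Results.MP_dee342_nt.LempelZivCycles
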