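import Mathlib
import Pool.Agent.R344.RL.I

/-!
# The number of cycles of the `3x+1` map and the reciprocal masses of the trees over them

Let `T` be the `3x+1` map on the integers (the map `T_3` of the problem). For a finite set `Z` of
integers let the level `k` over `Z` be the set of the integers `x ≠ 0` whose trajectory meets `Z` for the
first time at time `k`, and let its mass be the sum of `1 / |x|`. Take for `Z` the set of the nonzero
terms of all the cycles which are reached from the interval `[-y, y]`. The masses of the levels over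
this set converge to a limit `L y` as `k → ∞`, and `L` is nondecreasing.

* Every new cycle is seen by `L`: for `y ≤ y'` one has `L y = L y'` if and only if no cycle is
  reached from `[-y', y']` but not from `[-y, y]`. Hence `T` has only finitely many periodic orbits if
  and only if `L` is eventually constant.
* All the cycles which are not reached from `[-y, y]` (finitely many or infinitely many) contribute
  together at most `O((log y)^(-B))`, for every `B`.
-/

set_option autoImplicit false

open Filter Topology

namespace Pool.Agent.Results.MP_dee342_nt.MassOfNewCycles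

/-- The `3x+1` map on the integers. -/
def T (x : ℤ) : ℤ := if x % 2 = 0 then x / 2 else (3 * x + 1) / 2

/-- `x` is a periodic point of `T`, that is, it lies in a periodic orbit. -/
def Periodic (x : ℤ) : Prop := ∃ p : ℕ, 1 ≤ p ∧ T^[p] x = x

/-- The nonzero periodic points in the trajectories of the integers of `[-y, y]`. -/
def cycleTerms (y : ℕ) : Set ℤ :=
  {x : ℤ | x ≠ 0 ∧ Periodic x ∧ ∃ m : ℤ, |m| ≤ y ∧ ∃ k : ℕ, T^[k] m = x}

/-- The level `k` over `Z`: the `x ≠ 0` whose trajectory meets `Z` for the first time at time `k`. -/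
def level (Z : Set ℤ) (k : ℕ) : Set ℤ := {x : ℤ | x ≠ 0 ∧ T^[k] x ∈ Z ∧ ∀ i < k, T^[i] x ∉ Z}

/-- The sum of `1 / |x|` over the `x` in `A`. -/
noncomputable def mass (A : Set ℤ) : ℝ := ∑' x : A, (1 : ℝ) / |((x : ℤ) : ℝ)|

/-- There are a nondecreasing function `L` and a number `e` such that for every `y` the set
`cycleTerms y` is finite, the masses of the levels over it are finite, and they tend to `L y`. For every
`B` there is a `K` with `0 ≤ e - L y ≤ K / (log y)^B` for all `y ≥ 2`. For `y ≤ y'` one has `L y = L y'`
if and only if `cycleTerms y = cycleTerms y'`. The set of the periodic points is finite if and only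
if `L` is eventually constant. -/
theorem result : ∃ (e : ℝ) (L : ℕ → ℝ), Monotone L ∧
    (∀ y : ℕ, (cycleTerms y).Finite ∧
      (∀ k : ℕ, Summable (fun x : level (cycleTerms y) k => (1 : ℝ) / |((x : ℤ) : ℝ)|)) ∧
      Tendsto (fun k : ℕ => mass (level (cycleTerms y) k)) atTop (𝓝 (L y))) ∧
    (∀ B : ℕ, ∃ K : ℝ, 0 < K ∧ ∀ y : ℕ, 2 ≤ y → 0 ≤ e - L y ∧ e - L y ≤ K / Real.log y ^ B) ∧
    (∀ y y' : ℕ, y ≤ y' → (L y = L y' ↔ cycleTerms y = cycleTerms y')) ∧
    ({x : ℤ | Periodic x}.Finite ↔ ∃ y : ℕ, ∀ y' : ℕ, y ≤ y' → L y = L y') := by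
  obtain ⟨e, L, hL, h5, h6, h7⟩ := Pool.Agent.R344.RL.fin_main (d := 1) odd_one (by omega)
  have hZ : ∀ y, cycleTerms y = Pool.Agent.R344.RL.Zy 1 y := fun y => rfl
  refine ⟨e, L, hL, fun y => ?_, h6, h7, ?_⟩
  · obtain ⟨g1, g2⟩ := h5 y
    have e' : ∀ k, level (cycleTerms y) k =
        Pool.Agent.R344.LS.LZ 1 (Pool.Agent.R344.RL.Zy_fin (d := 1) y).toFinset k := by
      intro k
      ext x
      simp only [level, Pool.Agent.R344.LS.LZ, Pool.Agent.R344.LS.FH, Set.mem_ofPred_eq,
        Set.Finite.mem_toFinset]
      rfl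
    refine ⟨Pool.Agent.R344.RL.Zy_fin (d := 1) y, ?_, ?_⟩
    · intro k
      rw [e']
      exact g1 k
    · simp only [e']
      exact g2
  · have h8 := Pool.Agent.R344.RL.fin_iff (d := 1)
    have e1 : {x : ℤ | Periodic x} = {x : ℤ | Pool.Agent.R344.RL.Per 1 x} := rfl
    rw [e1, h8]
    refine exists_congr fun y => forall_congr' fun y' => ?_
    constructor
    · intro h hy
      exact (h7 y y' hy).2 (h hy)
    · intro h hy
      exact (h7 y y' hy).1 (h hy)

end Pool.Agent.Results.MP_dee342_nt.MassOfNewCycles
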