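import Pool.Agent.Results.MP_dee342_nt.CycleLengthWindows
import Pool.Agent.R482.ST.Star

/-!
# No lengths of cycles of the 3x+1 map on the integers near powers, orbits and other sequences

Let `f_n`, `n = 0, 1, 2, …`, be positive functions on `(a, ∞)`, `a ≥ 0`, such that `f_n(t) / t` is nondecreasing, and such
that the sequence `f_n(t)` has exponent of convergence at most `τ` for each `t > a`: for instance `f_n(t) = t ^ (v_n)` for
exponents `v_n ≥ 1` (`τ = 0`; all powers, the powers `t ^ (3 ^ n)` of Mills, …), the orbits `f_n(t) = g (g (⋯ g (t)))` of any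
map `g` with `g(t) > t` and `g(t) / t` nondecreasing (`τ = 0`; for instance of `t² + c`), and `f_n(t) = v_n t`.
Let `θ < 1`. For all `α > a` outside a set of Hausdorff dimension at most `(12/13 + τ) / (1 - θ)` and every `c`, for all but
finitely many `n` no cycle `Z` of the `3x+1` map on the integers has a number of elements with `||Z| - f_n(α)| ≤ c f_n(α) ^ θ`.
-/

set_option autoImplicit false

namespace Pool.Agent.Results.MP_dee342_nt.StarshapedLengths

open Finset
open CycleLengthWindows (T IsCycle Lengths count)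

/-- the functions `f n` are positive on `(a, ∞)`, `a ≥ 0`, and `f n x / x` is nondecreasing there -/
def Starshaped (a : ℝ) (f : ℕ → ℝ → ℝ) : Prop :=
  0 ≤ a ∧ ∀ n : ℕ, ∀ x y : ℝ, a < x → x ≤ y → 0 < f n x ∧ f n x / x ≤ f n y / y

/-- for each `x > a` the exponent of convergence of the sequence `f n x` is at most `τ` -/
def ExpLe (a : ℝ) (f : ℕ → ℝ → ℝ) (τ : ℝ) : Prop :=
  ∀ x : ℝ, a < x → ∀ t : ℝ, τ < t → Summable (fun n : ℕ => (f n x) ^ (-t))

/-- **Theorem.** For all starshaped functions `f` on `(a, ∞)` of exponent of convergence at most `τ ≥ 0` and `θ < 1` there is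
a set `E` of Hausdorff dimension at most `(12/13 + τ) / (1 - θ)` such that for each `α > a` outside `E`, each `c` and all but
finitely many `n` no cycle `Z` of the `3x+1` map on the integers satisfies `||Z| - f_n(α)| ≤ c f_n(α) ^ θ`. The functions `v_n x`, `v_n > 0`, are starshaped on `(0, ∞)`, of exponent `τ` if `v` has exponent of convergence at most
`τ`; the functions `x ^ (v_n)`, `v_n ≥ 1`, are starshaped on `(1, ∞)`, of exponent `0` if the sums of `exp (-t v_n)` converge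
for `t > 0`; and the iterates of a map `g` with `g(x) > x` for `x > a` and `g(x) / x` nondecreasing are starshaped on
`(a, ∞)`, of exponent `0`. -/
theorem result :
    (∀ (a : ℝ) (f : ℕ → ℝ → ℝ) (τ θ : ℝ), Starshaped a f → 0 ≤ τ → ExpLe a f τ → θ < 1 →
      ∃ E : Set ℝ, dimH E ≤ ENNReal.ofReal ((12 / 13 + τ) / (1 - θ)) ∧ ∀ α : ℝ, a < α → α ∉ E →
        ∀ c : ℝ, ∃ n₀ : ℕ, ∀ n : ℕ, n₀ ≤ n → ∀ Z : Finset ℤ, IsCycle Z → c * (f n α) ^ θ < |(Z.card : ℝ) - f n α|) ∧
    (∀ (v : ℕ → ℝ) (τ : ℝ), (∀ n, 0 < v n) → (∀ t : ℝ, τ < t → Summable (fun n : ℕ => (v n) ^ (-t))) →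
      Starshaped 0 (fun n x => v n * x) ∧ ExpLe 0 (fun n x => v n * x) τ) ∧
    (∀ v : ℕ → ℝ, (∀ n, 1 ≤ v n) → (∀ t : ℝ, 0 < t → Summable fun n : ℕ => Real.exp (-(t * v n))) →
      Starshaped 1 (fun n x => x ^ (v n)) ∧ ExpLe 1 (fun n x => x ^ (v n)) 0) ∧
    (∀ (a : ℝ) (g : ℝ → ℝ), 0 ≤ a → (∀ x y : ℝ, a < x → x ≤ y → g x / x ≤ g y / y) → (∀ x : ℝ, a < x → x < g x) →
      Starshaped a (fun n x => g^[n] x) ∧ ExpLe a (fun n x => g^[n] x) 0) := by
  obtain ⟨C, hC0, hC⟩ := count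
  refine ⟨fun a f τ θ hf hτ hE hθ1 => ?_, Pool.Agent.R482.ST.ex_mul, Pool.Agent.R482.ST.ex_pow,
    Pool.Agent.R482.ST.ex_orbit⟩
  obtain ⟨E, h1, h2⟩ := Pool.Agent.R482.ST.win_nat Lengths hf hτ hE (s := 12 / 13) (by norm_num) hθ1
      (fun ε hε => ⟨C, fun X hX => (hC X hX).trans (mul_le_mul_of_nonneg_left
        (Real.rpow_le_rpow_of_exponent_le (by exact_mod_cast hX) (by linarith)) hC0)⟩)
  refine ⟨E, h1, fun α hα hαE c => ?_⟩
  obtain ⟨n₀, hn⟩ := h2 α hα hαE c
  refine ⟨n₀, fun n hn1 Z hZ => ?_⟩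
  by_contra hcon
  push Not at hcon
  exact (hn n hn1 Z.card hcon).2 ⟨Z, hZ, rfl⟩

end Pool.Agent.Results.MP_dee342_nt.StarshapedLengths
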